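import Pool.Agent.Helper65.AH.St

/-!
# MP_1bacb5_al, project AH, module BS: an element which is trivial near every common fixed point is
trivial (Brin and Squier)
-/

set_option autoImplicit false

universe u

namespace Pool.Agent.Helper15.AH

open Pool.Agent.Helper58.RK Pool.Agent.Helper65.AH
open Filter Topology
open scoped commutatorElement

theorem mul_app (f g : ℝ ≃o ℝ) (x : ℝ) : (f * g) x = f (g x) := rfl

theorem inv_app_self (f : ℝ ≃o ℝ) (x : ℝ) : f⁻¹ (f x) = x := f.symm_apply_apply x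

theorem app_inv_self (f : ℝ ≃o ℝ) (x : ℝ) : f (f⁻¹ x) = x := f.apply_symm_apply x

theorem inv_fix {f : ℝ ≃o ℝ} {x : ℝ} (h : f x = x) : f⁻¹ x = x := by
  conv_lhs => rw [← h]
  exact inv_app_self f x

/-- common fixed points -/
def PP (G : Subgroup (ℝ ≃o ℝ)) : Set ℝ := {p | ∀ g ∈ G, g p = p}

theorem isClosed_PP (G : Subgroup (ℝ ≃o ℝ)) : IsClosed (PP G) := by
  have h1 : PP G = ⋂ g ∈ G, {p : ℝ | g p = p} := by
    ext p
    simp [PP]
  rw [h1]
  refine isClosed_biInter fun g _ => ?_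
  exact isClosed_eq g.continuous continuous_id

/-- the next common fixed point -/
noncomputable def kap (G : Subgroup (ℝ ≃o ℝ)) (x : ℝ) : ℝ := sInf (PP G ∩ Set.Ici x)

section kap

variable {G : Subgroup (ℝ ≃o ℝ)} (hG : ∀ g ∈ G, ∀ x, x ∉ Set.Icc (0 : ℝ) 1 → g x = x)

include hG

theorem exists_PP (x : ℝ) : ∃ p ∈ PP G, x < p := by
  refine ⟨max x 1 + 1, ?_, ?_⟩
  · intro g hg
    apply hG g hg
    intro h1
    have h2 := h1.2
    have h3 := le_max_right x 1
    linarith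
  · have h3 := le_max_left x 1
    linarith

theorem kap_mem (x : ℝ) : kap G x ∈ PP G ∧ x ≤ kap G x := by
  have h1 : IsClosed (PP G ∩ Set.Ici x) := (isClosed_PP G).inter isClosed_Ici
  obtain ⟨p, hp, hxp⟩ := exists_PP hG x
  have h2 : (PP G ∩ Set.Ici x).Nonempty := ⟨p, hp, hxp.le⟩
  have h3 : BddBelow (PP G ∩ Set.Ici x) := ⟨x, fun y hy => hy.2⟩
  exact h1.csInf_mem h2 h3

omit hG in
theorem kap_le {x p : ℝ} (hp : p ∈ PP G) (hx : x ≤ p) : kap G x ≤ p :=
  csInf_le ⟨x, fun _ hy => hy.2⟩ ⟨hp, hx⟩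

theorem kap_inv {g : ℝ ≃o ℝ} (hg : g ∈ G) (x : ℝ) : kap G (g x) = kap G x := by
  apply le_antisymm
  · apply kap_le (kap_mem hG x).1
    rw [← (kap_mem hG x).1 g hg]
    exact g.monotone (kap_mem hG x).2
  · apply kap_le (kap_mem hG (g x)).1
    have h1 := (kap_mem hG (g x)).2
    rw [← (kap_mem hG (g x)).1 g hg] at h1
    exact g.le_iff_le.1 h1

end kap

/-- elements which are trivial near every common fixed point -/
def NN (G : Subgroup (ℝ ≃o ℝ)) (f : ℝ ≃o ℝ) : Prop :=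
  f ∈ G ∧ ∀ p ∈ PP G, ∀ᶠ x in 𝓝 p, f x = x

theorem NN.mul {G : Subgroup (ℝ ≃o ℝ)} {f g : ℝ ≃o ℝ} (hf : NN G f) (hg : NN G g) :
    NN G (f * g) := by
  refine ⟨G.mul_mem hf.1 hg.1, fun p hp => ?_⟩
  filter_upwards [hf.2 p hp, hg.2 p hp] with x h1 h2
  rw [mul_app, h2, h1]

theorem NN.inv {G : Subgroup (ℝ ≃o ℝ)} {f : ℝ ≃o ℝ} (hf : NN G f) : NN G f⁻¹ := by
  refine ⟨G.inv_mem hf.1, fun p hp => ?_⟩
  filter_upwards [hf.2 p hp] with x h1
  exact inv_fix h1

theorem NN.conj {G : Subgroup (ℝ ≃o ℝ)} {f g : ℝ ≃o ℝ} (hf : NN G f) (hg : g ∈ G) :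
    NN G (g * f * g⁻¹) := by
  refine ⟨G.mul_mem (G.mul_mem hg hf.1) (G.inv_mem hg), fun p hp => ?_⟩
  have h1 : Tendsto (fun x => g⁻¹ x) (𝓝 p) (𝓝 p) := by
    have h2 := (g⁻¹ : ℝ ≃o ℝ).continuous.tendsto p
    rw [inv_fix (hp g hg)] at h2
    exact h2
  filter_upwards [h1.eventually (hf.2 p hp)] with x h3
  rw [mul_app, mul_app, h3, app_inv_self]

theorem NN.comm {G : Subgroup (ℝ ≃o ℝ)} {f g : ℝ ≃o ℝ} (hf : NN G f) (hg : NN G g) :
    NN G ⁅f, g⁆ := by
  rw [commutatorElement_def]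
  exact ((hf.mul hg).mul hf.inv).mul hg.inv

theorem pow_gt {f : ℝ ≃o ℝ} {x : ℝ} (h : x < f x) (n : ℕ) (hn : 0 < n) : x < (f ^ n) x := by
  induction n with
  | zero => omega
  | succ n ih =>
    rw [pow_succ', mul_app]
    rcases Nat.eq_zero_or_pos n with h0 | h0
    · rw [h0, pow_zero]
      exact h
    · exact h.trans (f.strictMono (ih h0))

theorem pow_lt {f : ℝ ≃o ℝ} {x : ℝ} (h : f x < x) (n : ℕ) (hn : 0 < n) : (f ^ n) x < x := by
  induction n with
  | zero => omega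
  | succ n ih =>
    rw [pow_succ', mul_app]
    rcases Nat.eq_zero_or_pos n with h0 | h0
    · rw [h0, pow_zero]
      exact h
    · exact (f.strictMono (ih h0)).trans h

theorem pow_ne {f : ℝ ≃o ℝ} {x : ℝ} (h : f x ≠ x) (n : ℕ) (hn : 0 < n) : (f ^ n) x ≠ x := by
  rcases lt_or_gt_of_ne h with h1 | h1
  · exact (pow_lt h1 n hn).ne
  · exact (pow_gt h1 n hn).ne'

/-- the pointwise stabiliser of `T` -/
def fixS (G : Subgroup (ℝ ≃o ℝ)) (T : Set ℝ) : Subgroup G where
  carrier := {g | ∀ x ∈ T, (g : ℝ ≃o ℝ) x = x}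
  mul_mem' := by
    intro a b ha hb x hx
    show (a : ℝ ≃o ℝ) ((b : ℝ ≃o ℝ) x) = x
    rw [hb x hx, ha x hx]
  one_mem' := fun x _ => rfl
  inv_mem' := by
    intro a ha x hx
    exact inv_fix (ha x hx)

theorem closure_comm {H : Type*} [Group H] (S : Set H) (hS : ∀ x ∈ S, ∀ y ∈ S, x * y = y * x) :
    ∀ x ∈ Subgroup.closure S, ∀ y ∈ Subgroup.closure S, ⁅x, y⁆ = 1 := by
  have h1 : Subgroup.closure S ≤ Subgroup.centralizer S := by
    rw [Subgroup.closure_le]
    intro x hx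
    rw [SetLike.mem_coe, Subgroup.mem_centralizer_iff]
    intro y hy
    exact hS y hy x hx
  have h2 : Subgroup.closure S ≤ Subgroup.centralizer (Subgroup.closure S : Set H) := by
    rw [Subgroup.closure_le]
    intro x hx
    rw [SetLike.mem_coe, Subgroup.mem_centralizer_iff]
    intro y hy
    exact (Subgroup.mem_centralizer_iff.1 (h1 hy) x hx).symm
  intro x hx y hy
  rw [commutatorElement_eq_one_iff_mul_comm]
  exact Subgroup.mem_centralizer_iff.1 (h2 hy) x hx

section main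

variable {G : Subgroup (ℝ ≃o ℝ)} (hG : ∀ g ∈ G, ∀ x, x ∉ Set.Icc (0 : ℝ) 1 → g x = x)

include hG

theorem supp_sub {f : ℝ ≃o ℝ} (hf : f ∈ G) : {x | f x ≠ x} ⊆ Set.Icc (0 : ℝ) 1 := by
  intro x hx
  by_contra h
  exact hx (hG f hf x h)

omit hG in
theorem clos_disj {f : ℝ ≃o ℝ} (hf : NN G f) : Disjoint (closure {x | f x ≠ x}) (PP G) := by
  rw [Set.disjoint_left]
  intro p hp hpP
  rw [mem_closure_iff_frequently] at hp
  obtain ⟨x, hx1, hx2⟩ := (hp.and_eventually (hf.2 p hpP)).exists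
  exact hx1 hx2

theorem fin_kap (hBA : StBA) {f : ℝ ≃o ℝ} (hf : NN G f) : (kap G '' {x | f x ≠ x}).Finite := by
  have h1 : IsCompact (closure {x | f x ≠ x}) :=
    isCompact_Icc.of_isClosed_subset isClosed_closure
      (closure_minimal (supp_sub hG hf.1) isClosed_Icc)
  have h2 := hBA.1 (PP G) (closure {x | f x ≠ x}) (isClosed_PP G) h1 (clos_disj hf)
    (exists_PP hG)
  exact h2.subset (Set.image_mono subset_closure)

theorem step (hBA : StBA) (r : ℕ) (hr : SRank G r) (n : ℕ)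
    (ih : ∀ m < n, ∀ f, NN G f → (kap G '' {x | f x ≠ x}).ncard = m → f = 1)
    (f : ℝ ≃o ℝ) (hf : NN G f) (hn : (kap G '' {x | f x ≠ x}).ncard = n) : f = 1 := by
  by_contra hne
  obtain ⟨x₀, hx₀⟩ : ∃ x₀, f x₀ ≠ x₀ := by
    by_contra h
    push Not at h
    apply hne
    ext x
    exact h x
  set b := kap G x₀ with hb
  set S : Set ℝ := {x | f x ≠ x ∧ kap G x = b} with hS
  have hx₀S : x₀ ∈ S := ⟨hx₀, rfl⟩
  have hSsub : S ⊆ {x | f x ≠ x} := fun x hx => hx.1
  have hSI : S ⊆ Set.Icc (0 : ℝ) 1 := hSsub.trans (supp_sub hG hf.1)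
  have hSb : BddBelow S := ⟨0, fun x hx => (hSI hx).1⟩
  have hSa : BddAbove S := ⟨1, fun x hx => (hSI hx).2⟩
  have hSne : S.Nonempty := ⟨x₀, hx₀S⟩
  set c := sInf S with hc
  set d := sSup S with hd
  have hcx : ∀ x ∈ S, c ≤ x := fun x hx => csInf_le hSb hx
  have hdx : ∀ x ∈ S, x ≤ d := fun x hx => le_csSup hSa hx
  have hcd : c ≤ d := (hcx x₀ hx₀S).trans (hdx x₀ hx₀S)
  have hdis := Set.disjoint_left.1 (clos_disj hf)
  have hcP : c ∉ PP G := hdis (closure_mono hSsub (csInf_mem_closure hSne hSb))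
  have hdP : d ∉ PP G := hdis (closure_mono hSsub (csSup_mem_closure hSne hSa))
  obtain ⟨h, hhG, hh⟩ := hBA.2 G hG c d hcd (by
    intro p hp hpI
    have hpP : p ∈ PP G := hp
    have h1 : c < p := lt_of_le_of_ne hpI.1 (fun h0 => hcP (h0 ▸ hpP))
    have h2 : p < d := lt_of_le_of_ne hpI.2 (fun h0 => hdP (h0 ▸ hpP))
    obtain ⟨x, hx, hxp⟩ := exists_lt_of_csInf_lt hSne h1
    obtain ⟨y, hy, hyp⟩ := exists_lt_of_lt_csSup hSne h2
    have h3 : b ≤ p := by
      rw [← hx.2]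
      exact kap_le hpP hxp.le
    have h4 : y ≤ b := by
      rw [← hy.2]
      exact (kap_mem hG y).2
    linarith)
  have hkG : ∀ k : ℕ, h ^ k ∈ G := fun k => G.pow_mem hhG k
  set F : ℕ → (ℝ ≃o ℝ) := fun k => h ^ k * f * (h ^ k)⁻¹ with hF
  have hFN : ∀ k, NN G (F k) := fun k => hf.conj (hkG k)
  have hFx : ∀ k x, F k x ≠ x → f ((h ^ k)⁻¹ x) ≠ (h ^ k)⁻¹ x := by
    intro k x hx h0
    apply hx
    show (h ^ k) (f ((h ^ k)⁻¹ x)) = x
    rw [h0, app_inv_self]
  have hkinv : ∀ k x, kap G ((h ^ k)⁻¹ x) = kap G x := fun k x =>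
    kap_inv hG (G.inv_mem (hkG k)) x
  -- the intervals
  have hpow : ∀ k : ℕ, 0 < k → d < (h ^ k) c := by
    intro k
    induction k with
    | zero => intro h0; omega
    | succ k ihk =>
      intro _
      rw [pow_succ', mul_app]
      rcases Nat.eq_zero_or_pos k with h0 | h0
      · rw [h0, pow_zero]
        exact hh
      · exact hh.trans (h.strictMono (hcd.trans_lt (ihk h0)))
  have hint : ∀ k x, kap G x = b → F k x ≠ x → (h ^ k) c ≤ x ∧ x ≤ (h ^ k) d := by
    intro k x hx hFkx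
    have h1 : (h ^ k)⁻¹ x ∈ S := ⟨hFx k x hFkx, by rw [hkinv, hx]⟩
    constructor
    · have h2 := (h ^ k).monotone (hcx _ h1)
      rw [app_inv_self] at h2
      exact h2
    · have h2 := (h ^ k).monotone (hdx _ h1)
      rw [app_inv_self] at h2
      exact h2
  have hdisj0 : ∀ i j, i < j → ∀ x, kap G x = b → F i x ≠ x → F j x ≠ x → False := by
    intro i j hij x hx h1 h2
    have h3 := (hint i x hx h1).2
    have h4 := (hint j x hx h2).1
    have h5 : (h ^ i) d < (h ^ j) c := by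
      have h6 : h ^ j = h ^ i * h ^ (j - i) := by
        rw [← pow_add]
        congr 1
        omega
      rw [h6, mul_app]
      exact (h ^ i).strictMono (hpow (j - i) (by omega))
    linarith
  have hdisj : ∀ i j, i ≠ j → ∀ x, kap G x = b → F i x ≠ x → F j x = x := by
    intro i j hij x hx h1
    by_contra h2
    rcases lt_or_gt_of_ne hij with h3 | h3
    · exact hdisj0 i j h3 x hx h1 h2
    · exact hdisj0 j i h3 x hx h2 h1
  have hcomm : ∀ i j, i ≠ j → ∀ x, kap G x = b → F i (F j x) = F j (F i x) := by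
    intro i j hij x hx
    by_cases h1 : F i x = x
    · by_cases h2 : F j x = x
      · rw [h2, h1, h2]
      · rw [h1]
        have h3 : F j (F j x) ≠ F j x := fun h0 => h2 ((F j).injective h0)
        have h4 : kap G (F j x) = b := by rw [kap_inv hG (hFN j).1, hx]
        exact hdisj j i hij.symm (F j x) h4 h3
    · have h2 : F j x = x := hdisj i j hij x hx h1
      rw [h2]
      have h3 : F i (F i x) ≠ F i x := fun h0 => h1 ((F i).injective h0)
      have h4 : kap G (F i x) = b := by rw [kap_inv hG (hFN i).1, hx]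
      exact (hdisj i j hij (F i x) h4 h3).symm
  have hfinf := fin_kap hG hBA hf
  have hone : ∀ i j, i ≠ j → ⁅F i, F j⁆ = 1 := by
    intro i j hij
    have hsub : kap G '' {x | ⁅F i, F j⁆ x ≠ x} ⊆ (kap G '' {x | f x ≠ x}) \ {b} := by
      rintro _ ⟨x, hx, rfl⟩
      have hcx : ⁅F i, F j⁆ x = F i (F j ((F i)⁻¹ ((F j)⁻¹ x))) := by
        rw [commutatorElement_def]
        rfl
      constructor
      · by_contra h0
        apply hx
        have hfix : ∀ k, ∀ y, kap G y = kap G x → F k y = y := by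
          intro k y hy
          by_contra h1
          apply h0
          refine ⟨(h ^ k)⁻¹ y, hFx k y h1, ?_⟩
          rw [hkinv, hy]
        have e1 := inv_fix (hfix j x rfl)
        have e2 := inv_fix (hfix i x rfl)
        rw [hcx, e1, e2, hfix j x rfl, hfix i x rfl]
      · intro h0
        rw [Set.mem_singleton_iff] at h0
        apply hx
        rw [hcx, hcomm i j hij]
        · rw [app_inv_self, app_inv_self]
        · rw [kap_inv hG (G.inv_mem (hFN i).1), kap_inv hG (G.inv_mem (hFN j).1), h0]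
    have hlt : (kap G '' {x | ⁅F i, F j⁆ x ≠ x}).ncard < n := by
      rw [← hn]
      refine lt_of_le_of_lt (Set.ncard_le_ncard hsub hfinf.diff) ?_
      exact Set.ncard_diff_singleton_lt_of_mem ⟨x₀, hx₀, rfl⟩ hfinf
    exact ih _ hlt _ ((hFN i).comm (hFN j)) rfl
  let a : ℕ → G := fun k => ⟨F k, (hFN k).1⟩
  have hcommG : ∀ i j, a i * a j = a j * a i := by
    intro i j
    by_cases hij : i = j
    · rw [hij]
    · apply Subtype.ext
      show F i * F j = F j * F i
      exact commutatorElement_eq_one_iff_mul_comm.1 (hone i j hij)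
  refine rank_lemma hr a (fun i => fixS G {x | kap G x = b ∧ F i x ≠ x}) ?_ ?_ ?_
  · intro x hx y hy i _
    rw [closure_comm (a '' Set.Iic r) (by
      rintro _ ⟨i, -, rfl⟩ _ ⟨j, -, rfl⟩
      exact hcommG i j) x hx y hy]
    exact Subgroup.one_mem _
  · intro i _ n hn0 hmem
    have h1 : kap G ((h ^ i) x₀) = b := by rw [kap_inv hG (hkG i)]
    have h2 : F i ((h ^ i) x₀) ≠ (h ^ i) x₀ := by
      show (h ^ i) (f ((h ^ i)⁻¹ ((h ^ i) x₀))) ≠ (h ^ i) x₀
      rw [inv_app_self]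
      exact fun h0 => hx₀ ((h ^ i).injective h0)
    have h3 : ((a i ^ n : G) : ℝ ≃o ℝ) ((h ^ i) x₀) = (h ^ i) x₀ := hmem _ ⟨h1, h2⟩
    have h4 : ((a i ^ n : G) : ℝ ≃o ℝ) = (F i) ^ n := by
      rw [Subgroup.coe_pow]
    rw [h4] at h3
    exact pow_ne h2 n hn0 h3
  · intro i j hij _ x hx
    exact hdisj i j hij.ne x hx.1 hx.2

end main

theorem pBS (hBA : StBA) : StBS := by
  intro r G hr hG f hf hfP
  have key : ∀ n, ∀ f, NN G f → (kap G '' {x | f x ≠ x}).ncard = n → f = 1 := by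
    intro n
    induction n using Nat.strong_induction_on with
    | _ n ih => exact fun f hf hn => step hG hBA r hr n ih f hf hn
  exact key _ f ⟨hf, hfP⟩ rfl

end Pool.Agent.Helper15.AH
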